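import Pool.Agent.W761.CP.Defs

/-!
Project CP (helper761): an a priori bound for a complex symmetric operator gives the resolvent.
-/

set_option autoImplicit false

open scoped InnerProductSpace
open Pool.Agent.W761.CP

namespace Pool.Agent.W99.CP

theorem ext : S_EXT := by
  intro X _ _ _ H J T z K hJa hJs hJJ hJi hsym hT hK hb
  obtain ⟨hT1, hT2⟩ := hT
  -- basic membership
  have hmem : ∀ f : X, (T f, f - T f) ∈ H := by
    intro f
    have h := hT1 f
    rwa [neg_smul, one_smul, ← sub_eq_add_neg] at h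
  have hJ0 : J 0 = 0 := by
    have h := hJs 0 0
    simpa using h
  have hJneg : ∀ x, J (-x) = -J x := by
    intro x
    have h := hJs (-1) x
    simpa using h
  have hJsub : ∀ x y, J (x - y) = J x - J y := by
    intro x y
    rw [sub_eq_add_neg, hJa, hJneg, ← sub_eq_add_neg]
  -- adjoint of T
  have hadj : ∀ x y : X, ⟪J (T (J y)), x⟫_ℂ = ⟪y, T x⟫_ℂ := by
    intro x y
    have h := hsym (T x) (x - T x) (T (J y)) (J y - T (J y)) (hmem x) (hmem (J y))
    rw [hJsub, hJJ, inner_sub_right, inner_sub_left] at h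
    linear_combination h
  set S : X →L[ℂ] X := ContinuousLinearMap.id ℂ X - (z + 1) • T with hS
  have hSa : ∀ f, S f = f - (z + 1) • T f := by
    intro f
    simp [hS]
  have hmemS : ∀ f, (T f, S f + z • T f) ∈ H := by
    intro f
    have h : S f + z • T f = f - T f := by
      rw [hSa, add_smul, one_smul]
      abel
    rw [h]
    exact hmem f
  have hTb : ∀ f, ‖T f‖ ≤ K * ‖S f‖ := fun f => hb _ _ (hmemS f)
  have hSb : ∀ f, ‖f‖ ≤ (1 + ‖z + 1‖ * K) * ‖S f‖ := by
    intro f
    have h : f = S f + (z + 1) • T f := by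
      rw [hSa]
      abel
    calc ‖f‖ = ‖S f + (z + 1) • T f‖ := by rw [← h]
      _ ≤ ‖S f‖ + ‖(z + 1) • T f‖ := norm_add_le _ _
      _ = ‖S f‖ + ‖z + 1‖ * ‖T f‖ := by rw [norm_smul]
      _ ≤ ‖S f‖ + ‖z + 1‖ * (K * ‖S f‖) := by
          have := mul_le_mul_of_nonneg_left (hTb f) (norm_nonneg (z + 1))
          linarith
      _ = (1 + ‖z + 1‖ * K) * ‖S f‖ := by ring
  have hC : 0 ≤ 1 + ‖z + 1‖ * K := by positivity
  have hanti : AntilipschitzWith (Real.toNNReal (1 + ‖z + 1‖ * K)) S := by
    apply ContinuousLinearMap.antilipschitz_of_bound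
    intro f
    rw [Real.coe_toNNReal _ hC]
    exact hSb f
  have hinj : ∀ f, S f = 0 → f = 0 := by
    intro f hf
    have h := hSb f
    rw [hf, norm_zero, mul_zero] at h
    exact norm_le_zero_iff.1 h
  have hker : LinearMap.ker (S : X →ₗ[ℂ] X) = ⊥ := by
    rw [LinearMap.ker_eq_bot']
    intro f hf
    exact hinj f hf
  have hclosed : IsClosed ((LinearMap.range (S : X →ₗ[ℂ] X) : Submodule ℂ X) : Set X) := by
    have h := hanti.isClosed_range S.uniformContinuous
    exact h
  have horth : (LinearMap.range (S : X →ₗ[ℂ] X))ᗮ = ⊥ := by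
    rw [Submodule.eq_bot_iff]
    intro y hy
    have h1 : ∀ x, ⟪y, S x⟫_ℂ = 0 := by
      intro x
      exact (Submodule.mem_orthogonal' _ _).1 hy (S x) (LinearMap.mem_range_self _ x)
    have h2 : y = (starRingEnd ℂ) (z + 1) • J (T (J y)) := by
      rw [← sub_eq_zero]
      apply ext_inner_right ℂ
      intro x
      rw [inner_zero_left, inner_sub_left, inner_smul_left, Complex.conj_conj, hadj]
      have h3 := h1 x
      rw [hSa, inner_sub_right, inner_smul_right] at h3
      exact h3
    have h3 : J y = (z + 1) • T (J y) := by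
      conv_lhs => rw [h2, hJs, Complex.conj_conj, hJJ]
    have h4 : S (J y) = 0 := by
      rw [hSa, ← h3, sub_self]
    have h5 := hinj _ h4
    rw [← hJJ y, h5, hJ0]
  have hrange : LinearMap.range (S : X →ₗ[ℂ] X) = ⊤ := by
    rw [← hclosed.submodule_topologicalClosure_eq]
    exact (Submodule.topologicalClosure_eq_top_iff).2 horth
  let e : X ≃L[ℂ] X := ContinuousLinearEquiv.ofBijective S hker hrange
  have he : ∀ f, S (e.symm f) = f := by
    intro f
    exact e.apply_symm_apply f
  have hRm : ∀ f, (T (e.symm f), f + z • T (e.symm f)) ∈ H := by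
    intro f
    have h := hmemS (e.symm f)
    rw [he f] at h
    exact h
  refine ⟨T ∘L (e.symm : X →L[ℂ] X), ⟨?_, ?_⟩, ?_⟩
  · intro f
    exact hRm f
  · intro u f hu
    have h1 : (u - T (e.symm f), (0 : X) + z • (u - T (e.symm f))) ∈ H := by
      have h2 := H.sub_mem hu (hRm f)
      have h3 : (u, f + z • u) - (T (e.symm f), f + z • T (e.symm f)) =
          (u - T (e.symm f), (0 : X) + z • (u - T (e.symm f))) := by
        rw [Prod.mk_sub_mk, smul_sub]
        congr 1
        abel
      rw [h3] at h2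
      exact h2
    have h4 := hb _ _ h1
    rw [norm_zero, mul_zero] at h4
    exact sub_eq_zero.1 (norm_le_zero_iff.1 h4)
  · apply ContinuousLinearMap.opNorm_le_bound _ hK
    intro f
    exact hb _ _ (hRm f)

end Pool.Agent.W99.CP
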